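import Pool.Agent.H664.FH.Stm2

/-!
Project FH, job ZERO: lower bounds for exponential polynomials on pieces of hypersurfaces.
-/

set_option autoImplicit false

namespace Pool.Agent.H293.FH

open MvPolynomial Filter Topology Metric Pool.Agent.H664.FH

variable {n : ℕ}

/-- constants are absorbed in powers of `T` -/
theorem const_le (c : ℝ) : ∃ D : ℝ, 0 ≤ D ∧ ∀ T : ℝ, 2 ≤ T → c ≤ T ^ D := by
  obtain ⟨N, hN⟩ := pow_unbounded_of_one_lt c (one_lt_two)
  refine ⟨N, Nat.cast_nonneg N, fun T hT => ?_⟩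
  rw [Real.rpow_natCast]
  exact hN.le.trans (pow_le_pow_left₀ (by norm_num) hT N)

/-- polynomials are of polynomial growth -/
theorem eval_le (Q : MvPolynomial (Fin n) ℂ) (D : ℝ) : ∃ D' : ℝ, 0 ≤ D' ∧ ∀ T : ℝ, 2 ≤ T →
    ∀ x : Fin n → ℂ, ‖x‖ ≤ T ^ D → ‖eval x Q‖ ≤ T ^ D' := by
  induction Q using MvPolynomial.induction_on with
  | C c =>
    obtain ⟨D', h1, h2⟩ := const_le ‖c‖
    exact ⟨D', h1, fun T hT x _ => by rw [eval_C]; exact h2 T hT⟩
  | add p q hp hq =>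
    obtain ⟨D1, h1, h2⟩ := hp
    obtain ⟨D2, h3, h4⟩ := hq
    refine ⟨max D1 D2 + 1, by positivity, fun T hT x hx => ?_⟩
    have h0 : (0 : ℝ) < T := by linarith
    have h5 : T ^ D1 ≤ T ^ max D1 D2 :=
      Real.rpow_le_rpow_of_exponent_le (by linarith) (le_max_left _ _)
    have h6 : T ^ D2 ≤ T ^ max D1 D2 :=
      Real.rpow_le_rpow_of_exponent_le (by linarith) (le_max_right _ _)
    rw [map_add, Real.rpow_add h0, Real.rpow_one]
    have h7 := norm_add_le (eval x p) (eval x q)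
    have h8 := h2 T hT x hx
    have h9 := h4 T hT x hx
    have h10 : 0 ≤ T ^ max D1 D2 := (Real.rpow_pos_of_pos h0 _).le
    nlinarith
  | mul_X p i hp =>
    obtain ⟨D1, h1, h2⟩ := hp
    refine ⟨D1 + |D|, by positivity, fun T hT x hx => ?_⟩
    have h0 : (0 : ℝ) < T := by linarith
    rw [map_mul, eval_X, norm_mul, Real.rpow_add h0]
    have h3 : T ^ D ≤ T ^ |D| := Real.rpow_le_rpow_of_exponent_le (by linarith) (le_abs_self D)
    have h4 : ‖x i‖ ≤ T ^ |D| := (norm_le_pi_norm x i).trans (hx.trans h3)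
    exact mul_le_mul (h2 T hT x hx) h4 (norm_nonneg _) (Real.rpow_pos_of_pos h0 _).le

/-- chain rule -/
theorem eval_deriv (Q : MvPolynomial (Fin n) ℂ) {Y : ℂ → Fin n → ℂ} {Y' : Fin n → ℂ} {τ : ℂ}
    (hY : HasDerivAt Y Y' τ) :
    HasDerivAt (fun s => eval (Y s) Q) (∑ l, eval (Y τ) (pderiv l Q) * Y' l) τ := by
  induction Q using MvPolynomial.induction_on with
  | C c =>
    simp only [eval_C, pderiv_C, map_zero, zero_mul, Finset.sum_const_zero]
    exact hasDerivAt_const τ c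
  | add p q hp hq =>
    simp only [map_add, add_mul, Finset.sum_add_distrib]
    exact hp.add hq
  | mul_X p i hp =>
    have h1 : HasDerivAt (fun s => Y s i) (Y' i) τ := (hasDerivAt_pi.mp hY) i
    have h2 := hp.mul h1
    have h3 : (∑ l, eval (Y τ) (pderiv l (p * X i)) * Y' l) =
        (∑ l, eval (Y τ) (pderiv l p) * Y' l) * Y τ i + eval (Y τ) p * Y' i := by
      have h4 : ∀ l, eval (Y τ) (pderiv l (p * X i)) * Y' l =
          eval (Y τ) (pderiv l p) * Y' l * Y τ i +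
            (if l = i then eval (Y τ) p * Y' i else 0) := by
        intro l
        rw [Derivation.leibniz, pderiv_X]
        simp only [smul_eq_mul, map_add, map_mul, eval_X, Pi.single_apply]
        split_ifs with h5 h6 h6
        · subst h5
          simp only [map_one]
          ring
        · exact absurd h5.symm h6
        · exact absurd h6.symm h5
        · simp only [map_zero]
          ring
      rw [Finset.sum_congr rfl fun l _ => h4 l, Finset.sum_add_distrib, Finset.sum_mul,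
        Finset.sum_ite_eq' Finset.univ i, if_pos (Finset.mem_univ i)]
    rw [h3]
    simp only [map_mul, eval_X]
    exact h2

/-- `P_e` -/
noncomputable def pe (P : MvPolynomial (Fin n) ℂ) (e : Fin n → ℝ) : MvPolynomial (Fin n) ℂ :=
  ∑ l, C (e l : ℂ) * pderiv l P

/-- `D g` -/
noncomputable def dd (P : MvPolynomial (Fin n) ℂ) (e : Fin n → ℝ) (l0 : Fin n)
    (g : MvPolynomial (Fin n) ℂ) : MvPolynomial (Fin n) ℂ :=
  pe P e * pderiv l0 g - pderiv l0 P * pe g e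

/-- the data of a curve on the hypersurface -/
structure Crv (P : MvPolynomial (Fin n) ℂ) (e : Fin n → ℝ) (l0 : Fin n) (i0 : Fin n) (ρ : ℝ)
    (Y Y' : ℂ → Fin n → ℂ) : Prop where
  der : ∀ τ ∈ ball (0 : ℂ) ρ, HasDerivAt Y (Y' τ) τ
  eq : ∀ τ ∈ ball (0 : ℂ) ρ, ∀ l, eval (Y τ) (pe P e) * Y' τ l =
    (if l = l0 then eval (Y τ) (pe P e) else 0) - eval (Y τ) (pderiv l0 P) * (e l : ℂ)

theorem Crv.mono {P : MvPolynomial (Fin n) ℂ} {e : Fin n → ℝ} {l0 i0 : Fin n} {ρ ρ' : ℝ}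
    {Y Y' : ℂ → Fin n → ℂ} (h : Crv P e l0 i0 ρ Y Y') (hρ : ρ' ≤ ρ) : Crv P e l0 i0 ρ' Y Y' :=
  ⟨fun τ hτ => h.der τ (ball_subset_ball hρ hτ), fun τ hτ => h.eq τ (ball_subset_ball hρ hτ)⟩

theorem Crv.dd_eq {P : MvPolynomial (Fin n) ℂ} {e : Fin n → ℝ} {l0 i0 : Fin n} {ρ : ℝ}
    {Y Y' : ℂ → Fin n → ℂ} (h : Crv P e l0 i0 ρ Y Y') {τ : ℂ} (hτ : τ ∈ ball (0 : ℂ) ρ)
    (g : MvPolynomial (Fin n) ℂ) :
    eval (Y τ) (pe P e) * ∑ l, eval (Y τ) (pderiv l g) * Y' τ l = eval (Y τ) (dd P e l0 g) := by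
  have h1 : ∀ l, eval (Y τ) (pe P e) * (eval (Y τ) (pderiv l g) * Y' τ l) =
      (if l = l0 then eval (Y τ) (pe P e) * eval (Y τ) (pderiv l0 g) else 0) -
        eval (Y τ) (pderiv l0 P) * ((e l : ℂ) * eval (Y τ) (pderiv l g)) := by
    intro l
    have h2 := h.eq τ hτ l
    calc eval (Y τ) (pe P e) * (eval (Y τ) (pderiv l g) * Y' τ l) =
        eval (Y τ) (pderiv l g) * (eval (Y τ) (pe P e) * Y' τ l) := by ring
      _ = _ := by
        rw [h2]
        split_ifs with h3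
        · subst h3; ring
        · ring
  rw [Finset.mul_sum, Finset.sum_congr rfl fun l _ => h1 l, Finset.sum_sub_distrib,
    Finset.sum_ite_eq' Finset.univ l0, if_pos (Finset.mem_univ l0), ← Finset.mul_sum]
  rw [dd, map_sub, map_mul, map_mul]
  congr 2
  simp only [pe, map_sum, map_mul, eval_C]

/-- the derivative of `∑ a_m(Y) e^(m Y_{i0})` -/
theorem Crv.exp_deriv {P : MvPolynomial (Fin n) ℂ} {e : Fin n → ℝ} {l0 i0 : Fin n} {ρ : ℝ}
    {Y Y' : ℂ → Fin n → ℂ} (h : Crv P e l0 i0 ρ Y Y') (he : e i0 = 1) (hl : l0 ≠ i0)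
    (F : Finset ℕ) (a : ℕ → MvPolynomial (Fin n) ℂ) {τ : ℂ} (hτ : τ ∈ ball (0 : ℂ) ρ) :
    ∃ d : ℂ, HasDerivAt (fun s => ∑ m ∈ F, eval (Y s) (a m) * Complex.exp (Y s i0) ^ m) d τ ∧
      eval (Y τ) (pe P e) * d = ∑ m ∈ F, eval (Y τ) (dd P e l0 (a m) -
        C (m : ℂ) * pderiv l0 P * a m) * Complex.exp (Y τ i0) ^ m := by
  have h1 : ∀ m ∈ F, HasDerivAt (fun s => eval (Y s) (a m) * Complex.exp (Y s i0) ^ m)
      ((∑ l, eval (Y τ) (pderiv l (a m)) * Y' τ l) * Complex.exp (Y τ i0) ^ m +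
        eval (Y τ) (a m) * ((m : ℂ) * Y' τ i0 * Complex.exp (Y τ i0) ^ m)) τ := by
    intro m _
    have h2 : HasDerivAt (fun s => Y s i0) (Y' τ i0) τ := (hasDerivAt_pi.mp (h.der τ hτ)) i0
    have h3 : HasDerivAt (fun s => Complex.exp (Y s i0) ^ m)
        ((m : ℂ) * Y' τ i0 * Complex.exp (Y τ i0) ^ m) τ := by
      have h4 : HasDerivAt (fun s => Complex.exp ((m : ℂ) * Y s i0))
          (Complex.exp ((m : ℂ) * Y τ i0) * ((m : ℂ) * Y' τ i0)) τ :=
        (h2.const_mul (m : ℂ)).cexp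
      have h5 : (fun s => Complex.exp (Y s i0) ^ m) = fun s => Complex.exp ((m : ℂ) * Y s i0) := by
        funext s
        rw [Complex.exp_nat_mul]
      rw [h5]
      convert h4 using 1
      rw [Complex.exp_nat_mul]
      ring
    exact (eval_deriv (a m) (h.der τ hτ)).mul h3
  refine ⟨_, HasDerivAt.fun_sum h1, ?_⟩
  rw [Finset.mul_sum]
  refine Finset.sum_congr rfl fun m _ => ?_
  have h2 := h.dd_eq hτ (a m)
  have h3 := h.eq τ hτ i0
  rw [if_neg (Ne.symm hl), he, Complex.ofReal_one] at h3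
  rw [map_sub, map_mul, map_mul, eval_C, ← h2]
  linear_combination (eval (Y τ) (a m)) * (m : ℂ) * Complex.exp (Y τ i0) ^ m * h3

/-- Cauchy estimate -/
theorem cauchy {f : ℂ → ℂ} {ρ η : ℝ} (hρ : 0 < ρ) (hf : DifferentiableOn ℂ f (ball 0 ρ))
    (hη : ∀ τ ∈ ball (0 : ℂ) ρ, ‖f τ‖ ≤ η) {τ : ℂ} (hτ : τ ∈ ball (0 : ℂ) (ρ / 2)) {d : ℂ}
    (hd : HasDerivAt f d τ) : ‖d‖ ≤ η * (2 / ρ) := by
  rw [← hd.deriv]
  have h1 : closedBall τ (ρ / 2) ⊆ ball 0 ρ := by
    intro z hz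
    rw [mem_closedBall, dist_eq_norm] at hz
    rw [mem_ball, dist_zero_right] at hτ ⊢
    calc ‖z‖ = ‖(z - τ) + τ‖ := by rw [sub_add_cancel]
      _ ≤ ‖z - τ‖ + ‖τ‖ := norm_add_le _ _
      _ < ρ := by linarith
  have h2 : DiffContOnCl ℂ f (ball τ (ρ / 2)) := by
    refine DifferentiableOn.diffContOnCl ?_
    exact hf.mono (closure_ball_subset_closedBall.trans h1)
  have h3 := Complex.norm_deriv_le_of_forall_mem_sphere_norm_le (half_pos hρ) h2
    (fun z hz => hη z (h1 (sphere_subset_closedBall hz)))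
  refine h3.trans (le_of_eq ?_)
  field_simp

/-- the main induction -/
theorem main (hno : S_noexp) (P : MvPolynomial (Fin n) ℂ) (i0 l0 : Fin n) (e : Fin n → ℝ)
    (hP : Irreducible P) (he : e i0 = 1) (hl : l0 ≠ i0) (hP0 : pderiv l0 P ≠ 0)
    (hPe : pe P e ≠ 0) : ∀ (N : ℕ) (F : Finset ℕ) (a : ℕ → MvPolynomial (Fin n) ℂ),
    F.card = N + 1 → (∀ m ∈ F, ¬ P ∣ a m) →
    ∃ R : MvPolynomial (Fin n) ℂ, ¬ P ∣ R ∧ ∀ R', R ∣ R' → ∀ D C0 ρ : ℝ, 0 < ρ → ∃ D' : ℝ,
      ∀ T : ℝ, 2 ≤ T → ∀ Y Y' : ℂ → Fin n → ℂ, Crv P e l0 i0 ρ Y Y' →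
      (∀ τ ∈ ball (0 : ℂ) ρ, ‖Y τ‖ ≤ T ^ D ∧ T ^ (-D) ≤ ‖eval (Y τ) R'‖ ∧
        |(Y τ i0).re| ≤ C0) →
      ∃ τ ∈ ball (0 : ℂ) ρ, T ^ (-D') ≤
        ‖∑ m ∈ F, eval (Y τ) (a m) * Complex.exp (Y τ i0) ^ m‖ := by
  intro N
  induction N with
  | zero =>
    intro F a hF ha
    obtain ⟨m, rfl⟩ := Finset.card_eq_one.mp (by simpa using hF)
    refine ⟨a m, ha m (Finset.mem_singleton_self m), ?_⟩
    rintro R' ⟨Q, rfl⟩ D C0 ρ hρ
    obtain ⟨D1, h1, h2⟩ := eval_le Q D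
    obtain ⟨D2, h3, h4⟩ := const_le (Real.exp (m * C0))
    refine ⟨D + D1 + D2, fun T hT Y Y' hY hb => ⟨0, mem_ball_self hρ, ?_⟩⟩
    have h0 : (0 : ℝ) < T := by linarith
    obtain ⟨b1, b2, b3⟩ := hb 0 (mem_ball_self hρ)
    rw [Finset.sum_singleton, norm_mul, norm_pow, Complex.norm_exp, ← Real.exp_nat_mul]
    have h5 := h2 T hT _ b1
    have h6 : T ^ (-(D + D1)) ≤ ‖eval (Y 0) (a m)‖ := by
      rw [map_mul, norm_mul] at b2
      have h7 : T ^ (-D) ≤ ‖eval (Y 0) (a m)‖ * T ^ D1 :=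
        b2.trans (mul_le_mul_of_nonneg_left h5 (norm_nonneg _))
      have h8 : T ^ (-(D + D1)) = T ^ (-D) * T ^ (-D1) := by
        rw [← Real.rpow_add h0]; congr 1; ring
      rw [h8]
      calc T ^ (-D) * T ^ (-D1) ≤ (‖eval (Y 0) (a m)‖ * T ^ D1) * T ^ (-D1) :=
            mul_le_mul_of_nonneg_right h7 (Real.rpow_pos_of_pos h0 _).le
        _ = ‖eval (Y 0) (a m)‖ * (T ^ D1 * T ^ (-D1)) := by ring
        _ = ‖eval (Y 0) (a m)‖ := by
            rw [← Real.rpow_add h0, add_neg_cancel, Real.rpow_zero, mul_one]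
    have h7 : T ^ (-D2) ≤ Real.exp (m * (Y 0 i0).re) := by
      have h8 := h4 T hT
      have h9 : Real.exp (-(m * C0)) ≤ Real.exp (m * (Y 0 i0).re) := by
        apply Real.exp_le_exp.mpr
        have h10 := (abs_le.mp b3).1
        have h11 : (0 : ℝ) ≤ m := Nat.cast_nonneg m
        nlinarith
      refine le_trans ?_ h9
      rw [Real.exp_neg, Real.rpow_neg h0.le]
      exact inv_anti₀ (Real.exp_pos _) h8
    have h8 : T ^ (-(D + D1 + D2)) = T ^ (-(D + D1)) * T ^ (-D2) := by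
      rw [← Real.rpow_add h0]; congr 1; ring
    rw [h8]
    exact mul_le_mul h6 h7 (Real.rpow_pos_of_pos h0 _).le (norm_nonneg _)
  | succ N ih =>
    intro F a hF ha
    have hne : F.Nonempty := Finset.card_pos.mp (by omega)
    obtain ⟨m0, hm0⟩ := hne
    have hF' : (F.erase m0).card = N + 1 := by
      rw [Finset.card_erase_of_mem hm0]; omega
    -- the new coefficients
    set B : MvPolynomial (Fin n) ℂ := dd P e l0 (a m0) - C (m0 : ℂ) * pderiv l0 P * a m0 with hB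
    set a' : ℕ → MvPolynomial (Fin n) ℂ := fun m =>
      a m0 * (dd P e l0 (a m) - C (m : ℂ) * pderiv l0 P * a m) - B * a m with ha'
    have ha1 : ∀ m ∈ F.erase m0, ¬ P ∣ a' m := by
      intro m hm
      have hmF := Finset.mem_of_mem_erase hm
      have hmm := Finset.ne_of_mem_erase hm
      have hk : ((m0 : ℤ) - (m : ℤ)) ≠ 0 := by
        intro h
        exact hmm (by omega)
      have h1 := hno n P (a m) (a m0) i0 l0 e ((m0 : ℤ) - (m : ℤ)) hP he hl hP0 hPe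
        (ha m hmF) (ha m0 hm0) hk
      have h2 : a' m = a m0 * ((∑ l, C (e l : ℂ) * pderiv l P) * pderiv l0 (a m) -
          pderiv l0 P * ∑ l, C (e l : ℂ) * pderiv l (a m)) -
          a m * ((∑ l, C (e l : ℂ) * pderiv l P) * pderiv l0 (a m0) -
          pderiv l0 P * ∑ l, C (e l : ℂ) * pderiv l (a m0)) +
          C ((((m0 : ℤ) - (m : ℤ) : ℤ)) : ℂ) * pderiv l0 P * a m * a m0 := by
        simp only [ha', hB, dd, pe]
        push_cast
        rw [C_sub]
        ring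
      rw [h2]
      exact h1
    obtain ⟨R, hR1, hR2⟩ := ih (F.erase m0) a' hF' ha1
    refine ⟨R, hR1, fun R' hR' D C0 ρ hρ => ?_⟩
    obtain ⟨D', hD'⟩ := hR2 R' hR' D C0 (ρ / 2) (half_pos hρ)
    obtain ⟨D1, hD1, hD1'⟩ := eval_le (a m0 * pe P e) D
    obtain ⟨D2, hD2, hD2'⟩ := eval_le B D
    obtain ⟨D3, hD3, hD3'⟩ := const_le (2 / ρ)
    refine ⟨D' + D1 + D2 + D3 + 2, fun T hT Y Y' hY hb => ?_⟩
    by_contra hcon
    push Not at hcon
    have h0 : (0 : ℝ) < T := by linarith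
    have hY2 : Crv P e l0 i0 (ρ / 2) Y Y' := hY.mono (by linarith)
    obtain ⟨τ, hτ, hlow⟩ := hD' T hT Y Y' hY2
      (fun τ hτ => hb τ (ball_subset_ball (by linarith) hτ))
    have hτ' : τ ∈ ball (0 : ℂ) ρ := ball_subset_ball (by linarith) hτ
    obtain ⟨b1, b2, b3⟩ := hb τ hτ'
    set f : ℂ → ℂ := fun s => ∑ m ∈ F, eval (Y s) (a m) * Complex.exp (Y s i0) ^ m with hf
    set η : ℝ := T ^ (-(D' + D1 + D2 + D3 + 2)) with hη
    have hdiff : DifferentiableOn ℂ f (ball 0 ρ) := by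
      intro s hs
      obtain ⟨d, hd, -⟩ := hY.exp_deriv he hl F a hs
      exact hd.differentiableAt.differentiableWithinAt
    obtain ⟨d, hd, hd'⟩ := hY.exp_deriv he hl F a hτ'
    have hdn : ‖d‖ ≤ η * (2 / ρ) := cauchy hρ hdiff (fun s hs => (hcon s hs).le) hτ hd
    -- the identity
    have hid : ∑ m ∈ F.erase m0, eval (Y τ) (a' m) * Complex.exp (Y τ i0) ^ m =
        eval (Y τ) (a m0 * pe P e) * d - eval (Y τ) B * f τ := by
      have h1 : eval (Y τ) (a m0 * pe P e) * d - eval (Y τ) B * f τ =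
          ∑ m ∈ F, eval (Y τ) (a' m) * Complex.exp (Y τ i0) ^ m := by
        rw [map_mul, mul_assoc, hd', Finset.mul_sum, hf]
        simp only
        rw [Finset.mul_sum, ← Finset.sum_sub_distrib]
        refine Finset.sum_congr rfl fun m _ => ?_
        simp only [ha', map_sub, map_mul]
        ring
      rw [h1, ← Finset.add_sum_erase F _ hm0]
      have h2 : a' m0 = 0 := by
        simp only [ha', hB]
        ring
      rw [h2, map_zero, zero_mul, zero_add]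
    rw [hid] at hlow
    have h1 := hD1' T hT _ b1
    have h2 := hD2' T hT _ b1
    have h3 := hD3' T hT
    have hηp : 0 < η := Real.rpow_pos_of_pos h0 _
    have h4 : ‖eval (Y τ) (a m0 * pe P e) * d - eval (Y τ) B * f τ‖ ≤
        T ^ D1 * (η * T ^ D3) + T ^ D2 * η := by
      refine (norm_sub_le _ _).trans ?_
      rw [norm_mul, norm_mul]
      have h5 : ‖d‖ ≤ η * T ^ D3 := hdn.trans (mul_le_mul_of_nonneg_left h3 hηp.le)
      have h6 : ‖f τ‖ ≤ η := (hcon τ hτ').le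
      exact add_le_add (mul_le_mul h1 h5 (norm_nonneg _) (Real.rpow_pos_of_pos h0 _).le)
        (mul_le_mul h2 h6 (norm_nonneg _) (Real.rpow_pos_of_pos h0 _).le)
    have h5 : T ^ D1 * (η * T ^ D3) ≤ T ^ (-D' - 2) := by
      rw [hη, ← Real.rpow_add h0, ← Real.rpow_add h0]
      exact Real.rpow_le_rpow_of_exponent_le (by linarith) (by linarith)
    have h6 : T ^ D2 * η ≤ T ^ (-D' - 2) := by
      rw [hη, ← Real.rpow_add h0]
      exact Real.rpow_le_rpow_of_exponent_le (by linarith) (by linarith)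
    have h7 : T ^ (-D' - 2) = T ^ (-D') / T ^ (2 : ℝ) := Real.rpow_sub h0 _ _
    have h8 : T ^ (2 : ℝ) = T ^ 2 := Real.rpow_two T
    have h9 : 0 < T ^ (-D') := Real.rpow_pos_of_pos h0 _
    have h10 : T ^ (-D') / T ^ (2 : ℝ) ≤ T ^ (-D') / 4 := by
      rw [h8]
      exact div_le_div_of_nonneg_left h9.le (by norm_num) (by nlinarith)
    rw [h7] at h5 h6
    linarith

theorem zero (hno : S_noexp) : S_zero := by
  intro n P i0 l0 e F a hP he hl hP0 hPe hF ha
  obtain ⟨N, hN⟩ : ∃ N, F.card = N + 1 := ⟨F.card - 1, by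
    have := Finset.card_pos.mpr hF
    omega⟩
  obtain ⟨R, hR, hR'⟩ := main hno P i0 l0 e hP he hl hP0 hPe N F a hN ha
  refine ⟨R, hR, fun R' hdvd D C0 => ?_⟩
  obtain ⟨D', hD'⟩ := hR' R' hdvd D C0 1 one_pos
  refine ⟨D', 2, fun T _ hT k w hw hb => ?_⟩
  have hsm : ∀ τ ∈ ball (0 : ℂ) 1, (Pi.single l0 τ : Fin n → ℂ) ∈ ball (0 : Fin n → ℂ) 1 := by
    intro τ hτ
    rw [mem_ball, dist_zero_right] at hτ ⊢
    rwa [Pi.norm_single]
  set W : ℂ → ℂ := fun τ => w (Pi.single l0 τ) with hW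
  have hWd : ∀ τ ∈ ball (0 : ℂ) 1, HasDerivAt W (deriv W τ) τ := by
    intro τ hτ
    have h1 : DifferentiableAt ℂ w (Pi.single l0 τ) :=
      (hw _ (hsm τ hτ)).differentiableAt (isOpen_ball.mem_nhds (hsm τ hτ))
    have h2 : DifferentiableAt ℂ (fun τ : ℂ => (Pi.single l0 τ : Fin n → ℂ)) τ := by
      rw [differentiableAt_pi]
      intro i
      by_cases hi : i = l0
      · subst hi
        simp only [Pi.single_eq_same]
        exact differentiableAt_id
      · simp only [Pi.single_eq_of_ne hi]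
        exact differentiableAt_const _
    exact (h1.comp τ h2).hasDerivAt
  set Y : ℂ → Fin n → ℂ := fun τ => cp k e w (Pi.single l0 τ) with hY
  set Y' : ℂ → Fin n → ℂ := fun τ l => (if l = l0 then 1 else 0) + deriv W τ * (e l : ℂ) with hY'
  have hYd : ∀ τ ∈ ball (0 : ℂ) 1, HasDerivAt Y (Y' τ) τ := by
    intro τ hτ
    rw [hasDerivAt_pi]
    intro l
    have h1 : HasDerivAt (fun τ : ℂ => (Pi.single l0 τ : Fin n → ℂ) l)
        (if l = l0 then 1 else 0) τ := by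
      by_cases hi : l = l0
      · subst hi
        simp only [Pi.single_eq_same, if_true]
        exact hasDerivAt_id τ
      · simp only [Pi.single_eq_of_ne hi, if_neg hi]
        exact hasDerivAt_const _ _
    have h2 := (hWd τ hτ).mul_const (e l : ℂ)
    have h3 := (h1.const_add (Complex.I * (k l : ℂ))).add h2
    exact h3
  have hcrv : Crv P e l0 i0 1 Y Y' := by
    refine ⟨hYd, fun τ hτ l => ?_⟩
    have h1 : HasDerivAt (fun s => eval (Y s) P) (∑ l, eval (Y τ) (pderiv l P) * Y' τ l) τ :=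
      eval_deriv P (hYd τ hτ)
    have h2 : HasDerivAt (fun s => eval (Y s) P) 0 τ := by
      have h3 : (fun s => eval (Y s) P) =ᶠ[𝓝 τ] fun _ => 0 := by
        filter_upwards [isOpen_ball.mem_nhds hτ] with s hs
        exact (hb _ (hsm s hs)).1
      exact (hasDerivAt_const τ (0 : ℂ)).congr_of_eventuallyEq h3
    have h3 := h1.unique h2
    have h4 : ∑ l, eval (Y τ) (pderiv l P) * Y' τ l =
        eval (Y τ) (pderiv l0 P) + deriv W τ * eval (Y τ) (pe P e) := by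
      simp only [hY', mul_add, Finset.sum_add_distrib, mul_ite, mul_one, mul_zero,
        Finset.sum_ite_eq', Finset.mem_univ, if_true]
      congr 1
      simp only [pe, map_sum, map_mul, eval_C, Finset.mul_sum]
      exact Finset.sum_congr rfl fun l _ => by ring
    rw [h4] at h3
    simp only [hY']
    split_ifs with h5
    · linear_combination (e l : ℂ) * h3
    · linear_combination (e l : ℂ) * h3
  obtain ⟨τ, hτ, h1⟩ := hD' T hT Y Y' hcrv (fun τ hτ => (hb _ (hsm τ hτ)).2)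
  exact ⟨_, hsm τ hτ, h1⟩

end Pool.Agent.H293.FH
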